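import Pool.Agent.K3h27.PP.Stm

set_option autoImplicit false

/-!
# Brick STR (MP_f77bf6_co): connected graphs without 8-vertex path that contain a 6-cycle
-/

open Finset

namespace Pool.Agent.K3h49.PP

open Pool.Agent.K3h27.PP

variable {V : Type} {G : SimpleGraph V}

/-- the six vertices of a cycle -/
structure Cyc (G : SimpleGraph V) (c : ZMod 6 → V) : Prop where
  inj : Function.Injective c
  adj : ∀ i, G.Adj (c i) (c (i + 1))

lemma Cyc.adj' {c : ZMod 6 → V} (h : Cyc G c) (i : ZMod 6) : G.Adj (c (i + 1)) (c i) := (h.adj i).symm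

/-- a path `y, c a0, …, c a5, z` -/
lemma pathYZ (hG : NoP8 G) {c : ZMod 6 → V} (hc : Cyc G c) {y z : V} (hy : ∀ i, c i ≠ y)
    (hz : ∀ i, c i ≠ z) (hyz : y ≠ z) (a0 a1 a2 a3 a4 a5 : ZMod 6)
    (hnd : [a0, a1, a2, a3, a4, a5].Nodup) (h0 : G.Adj y (c a0)) (h1 : G.Adj (c a0) (c a1))
    (h2 : G.Adj (c a1) (c a2)) (h3 : G.Adj (c a2) (c a3)) (h4 : G.Adj (c a3) (c a4))
    (h5 : G.Adj (c a4) (c a5)) (h6 : G.Adj (c a5) z) : False := by
  refine hG y (c a0) (c a1) (c a2) (c a3) (c a4) (c a5) z ?_ h0 h1 h2 h3 h4 h5 h6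
  have e : [y, c a0, c a1, c a2, c a3, c a4, c a5, z] =
      y :: ([a0, a1, a2, a3, a4, a5].map c ++ [z]) := rfl
  rw [e, List.nodup_cons]
  refine ⟨?_, ?_⟩
  · intro hmem
    rw [List.mem_append] at hmem
    rcases hmem with hmem | hmem
    · rw [List.mem_map] at hmem
      obtain ⟨i, _, hi⟩ := hmem
      exact hy i hi
    · rw [List.mem_singleton] at hmem
      exact hyz hmem
  · rw [List.nodup_append]
    refine ⟨hnd.map hc.inj, List.nodup_singleton z, ?_⟩
    intro u hu v hv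
    rw [List.mem_singleton] at hv
    rw [List.mem_map] at hu
    obtain ⟨i, _, hi⟩ := hu
    rw [hv, ← hi]
    exact hz i

/-- a path `c a0, …, c a5, x, z` -/
lemma pathXZ (hG : NoP8 G) {c : ZMod 6 → V} (hc : Cyc G c) {x z : V} (hx : ∀ i, c i ≠ x)
    (hz : ∀ i, c i ≠ z) (hxz : x ≠ z) (a0 a1 a2 a3 a4 a5 : ZMod 6)
    (hnd : [a0, a1, a2, a3, a4, a5].Nodup) (h1 : G.Adj (c a0) (c a1))
    (h2 : G.Adj (c a1) (c a2)) (h3 : G.Adj (c a2) (c a3)) (h4 : G.Adj (c a3) (c a4))
    (h5 : G.Adj (c a4) (c a5)) (h6 : G.Adj (c a5) x) (h7 : G.Adj x z) : False := by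
  refine hG (c a0) (c a1) (c a2) (c a3) (c a4) (c a5) x z ?_ h1 h2 h3 h4 h5 h6 h7
  have e : [c a0, c a1, c a2, c a3, c a4, c a5, x, z] =
      [a0, a1, a2, a3, a4, a5].map c ++ [x, z] := rfl
  rw [e, List.nodup_append]
  refine ⟨hnd.map hc.inj, by simp [hxz], ?_⟩
  intro u hu v hv
  rw [List.mem_map] at hu
  obtain ⟨i, _, hi⟩ := hu
  rw [← hi]
  simp only [List.mem_cons, List.not_mem_nil, or_false] at hv
  rcases hv with hv | hv
  · rw [hv]; exact hx i
  · rw [hv]; exact hz i

/-- a 7-cycle and a further vertex adjacent to it -/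
lemma no7 (hG : NoP8 G) (a b c d e f g w : V) (hnd : [a, b, c, d, e, f, g].Nodup)
    (h1 : G.Adj a b) (h2 : G.Adj b c) (h3 : G.Adj c d) (h4 : G.Adj d e) (h5 : G.Adj e f)
    (h6 : G.Adj f g) (h7 : G.Adj g a) (hw : w ∉ [a, b, c, d, e, f, g])
    (hadj : ∃ v ∈ [a, b, c, d, e, f, g], G.Adj w v) : False := by
  have key : ∀ l : List V, List.Perm l [a, b, c, d, e, f, g] → (w :: l).Nodup := by
    intro l hl
    rw [List.nodup_cons]
    exact ⟨fun h => hw (hl.mem_iff.1 h), hl.nodup_iff.2 hnd⟩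
  obtain ⟨v, hv, hwv⟩ := hadj
  simp only [List.mem_cons, List.not_mem_nil, or_false] at hv
  have r1 : List.Perm [b, c, d, e, f, g, a] [a, b, c, d, e, f, g] :=
    (List.perm_append_comm (l₁ := [b, c, d, e, f, g]) (l₂ := [a]))
  have r2 : List.Perm [c, d, e, f, g, a, b] [a, b, c, d, e, f, g] :=
    (List.perm_append_comm (l₁ := [c, d, e, f, g]) (l₂ := [a, b]))
  have r3 : List.Perm [d, e, f, g, a, b, c] [a, b, c, d, e, f, g] :=
    (List.perm_append_comm (l₁ := [d, e, f, g]) (l₂ := [a, b, c]))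
  have r4 : List.Perm [e, f, g, a, b, c, d] [a, b, c, d, e, f, g] :=
    (List.perm_append_comm (l₁ := [e, f, g]) (l₂ := [a, b, c, d]))
  have r5 : List.Perm [f, g, a, b, c, d, e] [a, b, c, d, e, f, g] :=
    (List.perm_append_comm (l₁ := [f, g]) (l₂ := [a, b, c, d, e]))
  have r6 : List.Perm [g, a, b, c, d, e, f] [a, b, c, d, e, f, g] :=
    (List.perm_append_comm (l₁ := [g]) (l₂ := [a, b, c, d, e, f]))
  rcases hv with h | h | h | h | h | h | h <;> rw [h] at hwv
  · exact hG w a b c d e f g (key _ (List.Perm.refl _)) hwv h1 h2 h3 h4 h5 h6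
  · exact hG w b c d e f g a (key _ r1) hwv h2 h3 h4 h5 h6 h7
  · exact hG w c d e f g a b (key _ r2) hwv h3 h4 h5 h6 h7 h1
  · exact hG w d e f g a b c (key _ r3) hwv h4 h5 h6 h7 h1 h2
  · exact hG w e f g a b c d (key _ r4) hwv h5 h6 h7 h1 h2 h3
  · exact hG w f g a b c d e (key _ r5) hwv h6 h7 h1 h2 h3 h4
  · exact hG w g a b c d e f (key _ r6) hwv h7 h1 h2 h3 h4 h5

lemma adj_rel {c : ZMod 6 → V} (hc : Cyc G c) {i j : ZMod 6} (h : j = i + 1) :
    G.Adj (c i) (c j) := by
  rw [h]; exact hc.adj i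

lemma adj_rel' {c : ZMod 6 → V} (hc : Cyc G c) {i j : ZMod 6} (h : i = j + 1) :
    G.Adj (c i) (c j) := by
  rw [h]; exact (hc.adj j).symm

lemma nd_up (i : ZMod 6) : [i + 1, i + 2, i + 3, i + 4, i + 5, i].Nodup := by
  revert i; decide

lemma nd_down (i : ZMod 6) : [i, i + 5, i + 4, i + 3, i + 2, i + 1].Nodup := by
  revert i; decide

lemma nd_t4 (i : ZMod 6) : [i + 2, i + 1, i + 3, i + 4, i + 5, i].Nodup := by
  revert i; decide

lemma nd_t5 (i : ZMod 6) : [i + 2, i + 3, i + 1, i, i + 5, i + 4].Nodup := by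
  revert i; decide

lemma subsets (U : Finset (ZMod 6)) : (∀ i ∈ U, i + 1 ∉ U) →
    U.card ≤ 2 ∨ ∃ i, U = {i, i + 2, i + 4} := by
  revert U; decide

lemma cases_odd (i p : ZMod 6) : p = i ∨ p = i + 2 ∨ p = i + 4 ∨ p = i + 1 ∨ p = i + 3 ∨
    p = i + 5 := by
  revert i p; decide

lemma z51 (i : ZMod 6) : i = i + 5 + 1 := by revert i; decide
lemma z42 (i : ZMod 6) : i + 4 + 2 = i := by revert i; decide
lemma z24 (i : ZMod 6) : i = i + 2 + 4 := by revert i; decide
lemma z244 (i : ZMod 6) : i + 2 = i + 4 + 4 := by revert i; decide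
lemma z43 (i : ZMod 6) : i + 4 + 3 = i + 1 := by revert i; decide
lemma zn2 (i : ZMod 6) : i ≠ i + 2 := by revert i; decide
lemma zn4 (i : ZMod 6) : i ≠ i + 4 := by revert i; decide
lemma zn24 (i : ZMod 6) : i + 2 ≠ i + 4 := by revert i; decide

theorem str_aux (hG : NoP8 G) (W : Finset V) (hconn : Conn G W) (hW : 8 ≤ W.card)
    (c : ZMod 6 → V) (hc : Cyc G c) (hcW : ∀ i, c i ∈ W) :
    (∃ X : Finset V, X ⊆ W ∧ X.card = 3 ∧ ∀ x ∈ W, ∀ y ∈ W, G.Adj x y → x ∈ X ∨ y ∈ X) ∨
    (∃ C U : Finset V, C ⊆ W ∧ C.card = 6 ∧ U ⊆ C ∧ U.card ≤ 2 ∧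
      ∀ x ∈ W, x ∉ C → ∀ y ∈ W, G.Adj x y → y ∈ U) := by
  classical
  set C : Finset V := univ.image c with hC
  have hC6 : C.card = 6 := by
    rw [hC, card_image_of_injective _ hc.inj]; rfl
  have hCW : C ⊆ W := by
    intro x hx
    rw [hC, mem_image] at hx
    obtain ⟨i, _, rfl⟩ := hx
    exact hcW i
  have hmC : ∀ i, c i ∈ C := fun i => mem_image_of_mem _ (mem_univ i)
  have hnC : ∀ y, y ∉ C → ∀ i, c i ≠ y := by
    intro y hy i h
    exact hy (h ▸ hmC i)
  have hCne : C.Nonempty := ⟨c 0, hmC 0⟩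
  -- (1) no edge outside `C`
  have h1 : ∀ x ∈ W, x ∉ C → ∀ z ∈ W, z ∉ C → ¬ G.Adj x z := by
    intro x0 hx0 hx0C z0 hz0 hz0C h0
    set Z : Finset V := W.filter (fun x => x ∉ C ∧ ∃ z ∈ W, z ∉ C ∧ G.Adj x z) with hZ
    have hZne : Z.Nonempty := ⟨x0, by
      rw [hZ, mem_filter]; exact ⟨hx0, hx0C, z0, hz0, hz0C, h0⟩⟩
    have hZW : Z ≠ W := by
      intro h
      have := hcW 0
      rw [← h, hZ, mem_filter] at this
      exact this.2.1 (hmC 0)
    obtain ⟨x, hx, y, hyW, hyZ, hxy⟩ := hconn Z (filter_subset _ _) hZne hZW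
    rw [hZ, mem_filter] at hx
    obtain ⟨hxW, hxC, z, hzW, hzC, hxz⟩ := hx
    have hyC : y ∈ C := by
      by_contra hyC
      apply hyZ
      rw [hZ, mem_filter]
      exact ⟨hyW, hyC, x, hxW, hxC, hxy.symm⟩
    rw [hC, mem_image] at hyC
    obtain ⟨i, _, hi⟩ := hyC
    rw [← hi] at hxy
    exact pathXZ hG hc (hnC x hxC) (hnC z hzC) hxz.ne (i + 1) (i + 2) (i + 3) (i + 4) (i + 5) i
      (nd_up i) (adj_rel hc (by ring)) (adj_rel hc (by ring)) (adj_rel hc (by ring))
      (adj_rel hc (by ring)) (adj_rel hc (z51 i)) hxy.symm hxz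
  -- every vertex outside `C` has a neighbour in `C`
  have h1' : ∀ y ∈ W, y ∉ C → ∃ i, G.Adj y (c i) := by
    intro y hy hyC
    have hne : ({y} : Finset V) ≠ W := by
      intro h
      rw [← h, card_singleton] at hW
      omega
    obtain ⟨x, hx, z, hzW, -, hxz⟩ := hconn {y} (by simpa using hy) (singleton_nonempty y) hne
    rw [mem_singleton] at hx
    rw [hx] at hxz
    have hzC : z ∈ C := by
      by_contra hzC
      exact h1 y hy hyC z hzW hzC hxz
    rw [hC, mem_image] at hzC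
    obtain ⟨i, _, hi⟩ := hzC
    exact ⟨i, hi ▸ hxz⟩
  -- two different vertices outside `C`
  have hR : ∀ y, ∃ w ∈ W, w ∉ C ∧ w ≠ y := by
    intro y
    have : 0 < ((W \ C).erase y).card := by
      have e1 : (W \ C).card = W.card - C.card := card_sdiff_of_subset hCW
      have e2 := pred_card_le_card_erase (s := W \ C) (a := y)
      omega
    obtain ⟨w, hw⟩ := card_pos.1 this
    rw [mem_erase, mem_sdiff] at hw
    exact ⟨w, hw.2.1, hw.2.2, hw.1⟩
  -- (2)
  have h2 : ∀ i, ∀ y ∈ W, y ∉ C → ∀ z ∈ W, z ∉ C → G.Adj y (c i) → ¬ G.Adj z (c (i + 1)) := by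
    intro i y hy hyC z hz hzC hyi hzi
    by_cases hyz : y = z
    · subst hyz
      obtain ⟨w, hw, hwC, hwy⟩ := hR y
      obtain ⟨j, hj⟩ := h1' w hw hwC
      refine no7 hG y (c (i + 1)) (c (i + 2)) (c (i + 3)) (c (i + 4)) (c (i + 5)) (c i) w ?_
        hzi (adj_rel hc (by ring)) (adj_rel hc (by ring)) (adj_rel hc (by ring))
        (adj_rel hc (by ring)) (adj_rel hc (z51 i)) hyi.symm ?_ ?_
      · have e : [y, c (i + 1), c (i + 2), c (i + 3), c (i + 4), c (i + 5), c i] =
          y :: [i + 1, i + 2, i + 3, i + 4, i + 5, i].map c := rfl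
        rw [e, List.nodup_cons]
        refine ⟨?_, (nd_up i).map hc.inj⟩
        intro hmem
        rw [List.mem_map] at hmem
        obtain ⟨k, _, hk⟩ := hmem
        exact hnC y hyC k hk
      · intro hmem
        have e : [y, c (i + 1), c (i + 2), c (i + 3), c (i + 4), c (i + 5), c i] =
          y :: [i + 1, i + 2, i + 3, i + 4, i + 5, i].map c := rfl
        rw [e, List.mem_cons] at hmem
        rcases hmem with h | h
        · exact hwy h
        · rw [List.mem_map] at h
          obtain ⟨k, _, hk⟩ := h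
          exact hnC w hwC k hk
      · refine ⟨c j, ?_, hj⟩
        rcases cases_odd i j with h | h | h | h | h | h <;> rw [h] <;> simp
    · exact pathYZ hG hc (hnC y hyC) (hnC z hzC) hyz i (i + 5) (i + 4) (i + 3) (i + 2) (i + 1)
        (nd_down i) hyi (adj_rel' hc (z51 i)) (adj_rel' hc (by ring))
        (adj_rel' hc (by ring)) (adj_rel' hc (by ring)) (adj_rel' hc (by ring)) hzi.symm
  -- the set of attachments
  set U : Finset (ZMod 6) := univ.filter (fun i => ∃ y ∈ W, y ∉ C ∧ G.Adj y (c i)) with hU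
  have hUm : ∀ i, i ∈ U ↔ ∃ y ∈ W, y ∉ C ∧ G.Adj y (c i) := by
    intro i
    rw [hU, mem_filter]
    exact ⟨fun h => h.2, fun h => ⟨mem_univ i, h⟩⟩
  have hatt : ∀ x ∈ W, x ∉ C → ∀ y ∈ W, G.Adj x y → ∃ j ∈ U, c j = y := by
    intro x hx hxC y hy hxy
    have hyC : y ∈ C := by
      by_contra hyC
      exact h1 x hx hxC y hy hyC hxy
    rw [hC, mem_image] at hyC
    obtain ⟨j, _, hj⟩ := hyC
    refine ⟨j, (hUm j).2 ⟨x, hx, hxC, hj ▸ hxy⟩, hj⟩
  have hUc : ∀ i ∈ U, i + 1 ∉ U := by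
    intro i hi hi1
    obtain ⟨y, hy, hyC, hyi⟩ := (hUm i).1 hi
    obtain ⟨z, hz, hzC, hzi⟩ := (hUm (i + 1)).1 hi1
    exact h2 i y hy hyC z hz hzC hyi hzi
  rcases subsets U hUc with hcard | ⟨i, hi⟩
  · right
    refine ⟨C, U.image c, hCW, hC6, ?_, (card_image_le).trans hcard, ?_⟩
    · intro x hx
      rw [mem_image] at hx
      obtain ⟨j, _, hj⟩ := hx
      exact hj ▸ hmC j
    · intro x hx hxC y hy hxy
      obtain ⟨j, hj, hjy⟩ := hatt x hx hxC y hy hxy
      exact hjy ▸ mem_image_of_mem _ hj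
  · left
    -- the claim
    have claim : ∀ k, k ∈ U → k + 2 ∈ U → (∀ j ∈ U, j = k ∨ j = k + 2 ∨ j = k + 4) →
        ¬ G.Adj (c (k + 1)) (c (k + 3)) := by
      intro k hk hk2 hall h13
      have T4 : ∀ y ∈ W, y ∉ C → ∀ z ∈ W, z ∉ C → G.Adj y (c (k + 2)) → G.Adj z (c k) →
          y = z := by
        intro y hy hyC z hz hzC hyk hzk
        by_contra hyz
        exact pathYZ hG hc (hnC y hyC) (hnC z hzC) hyz (k + 2) (k + 1) (k + 3) (k + 4) (k + 5) k
          (nd_t4 k) hyk (adj_rel' hc (by ring)) h13 (adj_rel hc (by ring)) (adj_rel hc (by ring))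
          (adj_rel hc (z51 k)) hzk.symm
      obtain ⟨z, hz, hzC, hzk⟩ := (hUm k).1 hk
      obtain ⟨y, hy, hyC, hyk⟩ := (hUm (k + 2)).1 hk2
      have hyz : y = z := T4 y hy hyC z hz hzC hyk hzk
      subst hyz
      obtain ⟨w, hw, hwC, hwy⟩ := hR y
      obtain ⟨j, hj⟩ := h1' w hw hwC
      rcases hall j ((hUm j).2 ⟨w, hw, hwC, hj⟩) with h | h | h <;> rw [h] at hj
      · exact hwy (T4 y hy hyC w hw hwC hyk hj).symm
      · exact hwy (T4 w hw hwC y hy hyC hj hzk)
      · exact pathYZ hG hc (hnC y hyC) (hnC w hwC) (Ne.symm hwy) (k + 2) (k + 3) (k + 1) k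
          (k + 5) (k + 4) (nd_t5 k) hyk (adj_rel hc (by ring)) h13.symm (adj_rel' hc (by ring))
          (adj_rel' hc (z51 k)) (adj_rel' hc (by ring)) hj.symm
    have m0 : i ∈ U := by rw [hi]; simp
    have m2 : i + 2 ∈ U := by rw [hi]; simp
    have m4 : i + 4 ∈ U := by rw [hi]; simp
    have hall : ∀ j ∈ U, j = i ∨ j = i + 2 ∨ j = i + 4 := by
      intro j hj
      rw [hi] at hj
      simpa using hj
    have c0 : ¬ G.Adj (c (i + 1)) (c (i + 3)) := claim i m0 m2 hall
    have c2 : ¬ G.Adj (c (i + 3)) (c (i + 5)) := by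
      have := claim (i + 2) m2 (by rw [show i + 2 + 2 = i + 4 by ring]; exact m4) (by
        intro j hj
        rcases hall j hj with h | h | h
        · right; right; rw [h]; exact z24 i
        · left; exact h
        · right; left; rw [h]; ring)
      rwa [show i + 2 + 1 = i + 3 by ring, show i + 2 + 3 = i + 5 by ring] at this
    have c4 : ¬ G.Adj (c (i + 5)) (c (i + 1)) := by
      have e : i + 4 + 2 = i := z42 i
      have := claim (i + 4) m4 (by rw [e]; exact m0) (by
        intro j hj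
        rcases hall j hj with h | h | h
        · right; left; rw [h, e]
        · right; right; rw [h]; exact z244 i
        · left; exact h)
      rwa [show i + 4 + 1 = i + 5 by ring, z43 i] at this
    refine ⟨{c i, c (i + 2), c (i + 4)}, ?_, ?_, ?_⟩
    · intro x hx
      simp only [mem_insert, mem_singleton] at hx
      rcases hx with h | h | h <;> rw [h] <;> exact hcW _
    · have n1 : c i ≠ c (i + 2) := fun h => zn2 i (hc.inj h)
      have n2 : c i ≠ c (i + 4) := fun h => zn4 i (hc.inj h)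
      have n3 : c (i + 2) ≠ c (i + 4) := fun h => zn24 i (hc.inj h)
      exact card_eq_three.2 ⟨_, _, _, n1, n2, n3, rfl⟩
    · have hmX : ∀ j ∈ U, c j ∈ ({c i, c (i + 2), c (i + 4)} : Finset V) := by
        intro j hj
        rcases hall j hj with h | h | h <;> rw [h] <;> simp
      intro x hx y hy hxy
      by_cases hxC : x ∈ C
      · by_cases hyC : y ∈ C
        · rw [hC, mem_image] at hxC hyC
          obtain ⟨p, _, hp⟩ := hxC
          obtain ⟨q, _, hq⟩ := hyC
          rw [← hp, ← hq] at hxy ⊢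
          rcases cases_odd i p with h | h | h | h | h | h
          · left; rw [h]; simp
          · left; rw [h]; simp
          · left; rw [h]; simp
          all_goals
            rcases cases_odd i q with h' | h' | h' | h' | h' | h'
            · right; rw [h']; simp
            · right; rw [h']; simp
            · right; rw [h']; simp
            all_goals
              exfalso
              rw [h, h'] at hxy
              first
                | exact hxy.ne rfl
                | exact c0 hxy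
                | exact c0 hxy.symm
                | exact c2 hxy
                | exact c2 hxy.symm
                | exact c4 hxy
                | exact c4 hxy.symm
        · left
          obtain ⟨j, hj, hjx⟩ := hatt y hy hyC x hx hxy.symm
          exact hjx ▸ hmX j hj
      · right
        obtain ⟨j, hj, hjy⟩ := hatt x hx hxC y hy hxy
        exact hjy ▸ hmX j hj

theorem t_STR : Pool.Agent.K3h27.PP.S_STR := by
  intro V G hG W hconn hW a ha b hb c hc d hd e he f hf hnd h1 h2 h3 h4 h5 h6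
  let cc : ZMod 6 → V := ![a, b, c, d, e, f]
  have hinj : Function.Injective cc := by
    have key := List.nodup_iff_injective_get.1 hnd
    have e : ∀ i : ZMod 6, cc i = [a, b, c, d, e, f].get (show Fin 6 from i) := by
      intro i; fin_cases i <;> rfl
    intro i j hij
    rw [e, e] at hij
    exact key hij
  refine str_aux hG W hconn hW cc ⟨hinj, ?_⟩ ?_
  · intro i
    fin_cases i
    · exact h1
    · exact h2
    · exact h3
    · exact h4
    · exact h5
    · exact h6
  · intro i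
    fin_cases i
    · exact ha
    · exact hb
    · exact hc
    · exact hd
    · exact he
    · exact hf

end Pool.Agent.K3h49.PP
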